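import Pool.Agent.Helper95.PW.Stmts

/-!
# PW, row CUT: the cutoff functions
-/

set_option autoImplicit false

namespace Pool.Agent.Helper95.PW

open MeasureTheory Filter

/-- smooth with compact support -/
def cut_CS (f : R3 → ℝ) : Prop := ContDiff ℝ (⊤ : ℕ∞) f ∧ HasCompactSupport f

theorem cut_pd {f : R3 → ℝ} (h : cut_CS f) (i : Fin 3) : cut_CS (pd i f) := by
  constructor
  · have h1 : ContDiff ℝ (⊤ : ℕ∞) (fderiv ℝ f) := h.1.fderiv_right (by simp)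
    exact h1.clm_apply contDiff_const
  · exact h.2.fderiv_apply (𝕜 := ℝ) _

theorem cut_bd {f : R3 → ℝ} (h : cut_CS f) : ∃ C : ℝ, ∀ y, |f y| ≤ C :=
  h.1.continuous.bounded_above_of_compact_support h.2

theorem cut_bdfin {ι : Type} [Fintype ι] (f : ι → R3 → ℝ) (h : ∀ i, cut_CS (f i)) :
    ∃ C : ℝ, 0 ≤ C ∧ ∀ i y, |f i y| ≤ C := by
  choose C hC using fun i => cut_bd (h i)
  refine ⟨∑ i, |C i|, Finset.sum_nonneg fun i _ => abs_nonneg _, fun i y => ?_⟩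
  exact (hC i y).trans ((le_abs_self _).trans
    (Finset.single_le_sum (f := fun i => |C i|) (fun j _ => abs_nonneg _) (Finset.mem_univ i)))

theorem cut_diff {f : R3 → ℝ} (h : cut_CS f) (y : R3) : DifferentiableAt ℝ f y :=
  (h.1.differentiable (by simp)).differentiableAt

/-- scaling -/
noncomputable def cut_sc (c R : ℝ) (f : R3 → ℝ) : R3 → ℝ := fun y => c * f (R⁻¹ • y)

theorem cut_sc_pd {f : R3 → ℝ} (h : cut_CS f) (c R : ℝ) (i : Fin 3) :
    pd i (cut_sc c R f) = cut_sc (c * R⁻¹) R (pd i f) := by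
  funext y
  have h1 : DifferentiableAt ℝ f (R⁻¹ • y) := cut_diff h _
  have h2 : HasFDerivAt (fun y : R3 => R⁻¹ • y) (R⁻¹ • ContinuousLinearMap.id ℝ R3) y :=
    (hasFDerivAt_id y).const_smul R⁻¹
  have h3 : HasFDerivAt (fun y : R3 => f (R⁻¹ • y))
      ((fderiv ℝ f (R⁻¹ • y)).comp (R⁻¹ • ContinuousLinearMap.id ℝ R3)) y :=
    h1.hasFDerivAt.comp y h2
  have h4 := h3.const_mul c
  show fderiv ℝ (fun y : R3 => c * f (R⁻¹ • y)) y (Pi.single i 1) =
    c * R⁻¹ * fderiv ℝ f (R⁻¹ • y) (Pi.single i 1)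
  rw [h4.fderiv]
  show c * fderiv ℝ f (R⁻¹ • y) (R⁻¹ • (Pi.single i 1 : R3)) = _
  rw [map_smul, smul_eq_mul]
  ring

theorem cut_sub_pd {f g : R3 → ℝ} (hf : cut_CS f) (hg : cut_CS g) (i : Fin 3) :
    pd i (fun y => f y - g y) = fun y => pd i f y - pd i g y := by
  funext y
  show fderiv ℝ (fun y => f y - g y) y (Pi.single i 1) = _
  have h1 := (cut_diff hf y).hasFDerivAt.sub (cut_diff hg y).hasFDerivAt
  have h2 : fderiv ℝ (fun y => f y - g y) y = fderiv ℝ f y - fderiv ℝ g y := h1.fderiv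
  rw [h2]
  rfl

theorem cut_gm_sc (m : Fin 3) (R : ℝ) (hR : 0 < R) : gm m R = cut_sc R R (gm m 1) := by
  funext y
  show y m * Real.smoothTransition (2 - (y 0 ^ 2 + y 1 ^ 2 + y 2 ^ 2) / R ^ 2) =
    R * ((R⁻¹ * y m) * Real.smoothTransition
      (2 - ((R⁻¹ * y 0) ^ 2 + (R⁻¹ * y 1) ^ 2 + (R⁻¹ * y 2) ^ 2) / 1 ^ 2))
  have e1 : ((R⁻¹ * y 0) ^ 2 + (R⁻¹ * y 1) ^ 2 + (R⁻¹ * y 2) ^ 2) / 1 ^ 2 =
      (y 0 ^ 2 + y 1 ^ 2 + y 2 ^ 2) / R ^ 2 := by
    field_simp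
  rw [e1]
  field_simp

theorem cut_nr_sq (y : R3) : nr y ^ 2 = y 0 ^ 2 + y 1 ^ 2 + y 2 ^ 2 :=
  Real.sq_sqrt (by positivity)

theorem cut_nr_nonneg (y : R3) : 0 ≤ nr y := Real.sqrt_nonneg _

theorem cut_one (m : Fin 3) (R : ℝ) (hR : 0 < R) (y : R3) (hy : nr y ≤ R) : gm m R y = y m := by
  unfold gm
  rw [Real.smoothTransition.one_of_one_le, mul_one]
  have h1 : y 0 ^ 2 + y 1 ^ 2 + y 2 ^ 2 ≤ R ^ 2 := by
    rw [← cut_nr_sq]
    exact pow_le_pow_left₀ (cut_nr_nonneg y) hy 2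
  have h2 : (y 0 ^ 2 + y 1 ^ 2 + y 2 ^ 2) / R ^ 2 ≤ 1 := by
    rw [div_le_one (by positivity)]
    exact h1
  linarith

theorem cut_zero (m : Fin 3) (R : ℝ) (hR : 0 < R) (y : R3) (hy : 2 * R ≤ nr y) :
    gm m R y = 0 := by
  unfold gm
  rw [Real.smoothTransition.zero_of_nonpos, mul_zero]
  have h1 : (2 * R) ^ 2 ≤ y 0 ^ 2 + y 1 ^ 2 + y 2 ^ 2 := by
    rw [← cut_nr_sq]
    exact pow_le_pow_left₀ (by positivity) hy 2
  have h2 : 2 ≤ (y 0 ^ 2 + y 1 ^ 2 + y 2 ^ 2) / R ^ 2 := by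
    rw [le_div_iff₀ (by positivity)]
    nlinarith [sq_nonneg R]
  linarith

theorem cut_abs_le_nr (y : R3) (i : Fin 3) : |y i| ≤ nr y := by
  apply Real.abs_le_sqrt
  fin_cases i
  · show y 0 ^ 2 ≤ _
    nlinarith [sq_nonneg (y 1), sq_nonneg (y 2)]
  · show y 1 ^ 2 ≤ _
    nlinarith [sq_nonneg (y 0), sq_nonneg (y 2)]
  · show y 2 ^ 2 ≤ _
    nlinarith [sq_nonneg (y 0), sq_nonneg (y 1)]

theorem cut_gm (m : Fin 3) (R : ℝ) (hR : 0 < R) : cut_CS (gm m R) := by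
  constructor
  · have h1 : ContDiff ℝ (⊤ : ℕ∞) (fun y : R3 => y m) := contDiff_apply ℝ ℝ m
    have h2 : ContDiff ℝ (⊤ : ℕ∞)
        (fun y : R3 => 2 - (y 0 ^ 2 + y 1 ^ 2 + y 2 ^ 2) / R ^ 2) := by
      have c0 : ContDiff ℝ (⊤ : ℕ∞) (fun y : R3 => y 0) := contDiff_apply ℝ ℝ 0
      have c1 : ContDiff ℝ (⊤ : ℕ∞) (fun y : R3 => y 1) := contDiff_apply ℝ ℝ 1
      have c2 : ContDiff ℝ (⊤ : ℕ∞) (fun y : R3 => y 2) := contDiff_apply ℝ ℝ 2
      exact contDiff_const.sub ((((c0.pow 2).add (c1.pow 2)).add (c2.pow 2)).div_const _)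
    exact h1.mul (Real.smoothTransition.contDiff.comp h2)
  · apply HasCompactSupport.intro (isCompact_closedBall (0 : R3) (2 * R))
    intro y hy
    apply cut_zero m R hR
    rw [mem_closedBall_zero_iff, not_le] at hy
    by_contra hc
    rw [not_le] at hc
    apply absurd hy
    rw [not_lt, pi_norm_le_iff_of_nonneg (by positivity)]
    intro i
    exact (cut_abs_le_nr y i).trans hc.le

theorem cut_Scale (f : R3 → ℝ) (K R : ℝ) (hR : 0 < R) (hf : cut_CS f) (hsc : cut_CS (cut_sc R R f))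
    (h : Scale f K 1) : Scale (cut_sc R R f) K R := by
  have e0 : R * R⁻¹ = 1 := mul_inv_cancel₀ hR.ne'
  refine ⟨hsc.1, hsc.2, ?_, ?_, ?_, ?_⟩
  · intro i y
    rw [cut_sc_pd hf, e0]
    show |1 * pd i f (R⁻¹ • y)| ≤ K
    rw [one_mul]
    exact h.d1 _ _
  · intro i j y
    rw [cut_sc_pd hf, cut_sc_pd (cut_pd hf _), e0, one_mul]
    show |R⁻¹ * pd i (pd j f) (R⁻¹ • y)| ≤ K / R
    rw [abs_mul, abs_of_pos (inv_pos.2 hR), div_eq_mul_inv, mul_comm]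
    apply mul_le_mul_of_nonneg_right _ (inv_pos.2 hR).le
    have := h.d2 i j (R⁻¹ • y)
    rwa [div_one] at this
  · intro i j l y
    rw [cut_sc_pd hf, cut_sc_pd (cut_pd hf _), cut_sc_pd (cut_pd (cut_pd hf _) _), e0, one_mul]
    show |R⁻¹ * R⁻¹ * pd i (pd j (pd l f)) (R⁻¹ • y)| ≤ K / R ^ 2
    have e1 : R⁻¹ * R⁻¹ = (R ^ 2)⁻¹ := by rw [← mul_inv, pow_two]
    have e2 : 0 < (R ^ 2)⁻¹ := by positivity
    rw [e1, abs_mul, abs_of_pos e2, div_eq_mul_inv, mul_comm]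
    apply mul_le_mul_of_nonneg_right _ e2.le
    have := h.d3 i j l (R⁻¹ • y)
    rwa [one_pow, div_one] at this
  · intro i j l m y
    rw [cut_sc_pd hf, cut_sc_pd (cut_pd hf _), cut_sc_pd (cut_pd (cut_pd hf _) _),
      cut_sc_pd (cut_pd (cut_pd (cut_pd hf _) _) _), e0, one_mul]
    show |R⁻¹ * R⁻¹ * R⁻¹ * pd i (pd j (pd l (pd m f))) (R⁻¹ • y)| ≤ K / R ^ 3
    have e1 : R⁻¹ * R⁻¹ * R⁻¹ = (R ^ 3)⁻¹ := by
      rw [← mul_inv, ← mul_inv]
      congr 1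
      ring
    have e2 : 0 < (R ^ 3)⁻¹ := by positivity
    rw [e1, abs_mul, abs_of_pos e2, div_eq_mul_inv, mul_comm]
    apply mul_le_mul_of_nonneg_right _ e2.le
    have := h.d4 i j l m (R⁻¹ • y)
    rwa [one_pow, div_one] at this

theorem cut_sub_Scale (f g : R3 → ℝ) (K r R : ℝ) (hr : 0 < r) (hrR : r ≤ R) (hK : 0 ≤ K)
    (hf : cut_CS f) (hg : cut_CS g) (h1 : Scale f K R) (h2 : Scale g K r) :
    Scale (fun y => f y - g y) (2 * K) r := by
  have hR : 0 < R := hr.trans_le hrR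
  have e1 : ∀ i, pd i (fun y => f y - g y) = fun y => pd i f y - pd i g y :=
    cut_sub_pd hf hg
  have e2 : ∀ i j, pd i (pd j (fun y => f y - g y)) =
      fun y => pd i (pd j f) y - pd i (pd j g) y := by
    intro i j
    rw [e1]
    exact cut_sub_pd (cut_pd hf _) (cut_pd hg _) i
  have e3 : ∀ i j l, pd i (pd j (pd l (fun y => f y - g y))) =
      fun y => pd i (pd j (pd l f)) y - pd i (pd j (pd l g)) y := by
    intro i j l
    rw [e2]
    exact cut_sub_pd (cut_pd (cut_pd hf _) _) (cut_pd (cut_pd hg _) _) i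
  have e4 : ∀ i j l m, pd i (pd j (pd l (pd m (fun y => f y - g y)))) =
      fun y => pd i (pd j (pd l (pd m f))) y - pd i (pd j (pd l (pd m g))) y := by
    intro i j l m
    rw [e3]
    exact cut_sub_pd (cut_pd (cut_pd (cut_pd hf _) _) _) (cut_pd (cut_pd (cut_pd hg _) _) _) i
  have b : ∀ (k : ℕ) (a c : ℝ), |a| ≤ K / R ^ k → |c| ≤ K / r ^ k → |a - c| ≤ 2 * K / r ^ k := by
    intro k a c ha hc
    have h3 : K / R ^ k ≤ K / r ^ k := by
      apply div_le_div_of_nonneg_left hK (by positivity)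
      exact pow_le_pow_left₀ hr.le hrR k
    calc |a - c| ≤ |a| + |c| := abs_sub _ _
      _ ≤ K / r ^ k + K / r ^ k := by linarith
      _ = 2 * K / r ^ k := by ring
  refine ⟨hf.1.sub hg.1, hf.2.sub hg.2, ?_, ?_, ?_, ?_⟩
  · intro i y
    rw [e1]
    have := b 0 (pd i f y) (pd i g y) (by rw [pow_zero, div_one]; exact h1.d1 i y)
      (by rw [pow_zero, div_one]; exact h2.d1 i y)
    rwa [pow_zero, div_one] at this
  · intro i j y
    rw [e2]
    have := b 1 (pd i (pd j f) y) (pd i (pd j g) y) (by rw [pow_one]; exact h1.d2 i j y)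
      (by rw [pow_one]; exact h2.d2 i j y)
    rwa [pow_one] at this
  · intro i j l y
    rw [e3]
    exact b 2 _ _ (h1.d3 i j l y) (h2.d3 i j l y)
  · intro i j l m y
    rw [e4]
    exact b 3 _ _ (h1.d4 i j l m y) (h2.d4 i j l m y)

theorem cut_Scale_mono (f : R3 → ℝ) (K K' r : ℝ) (hr : 0 < r) (hK : K ≤ K') (h : Scale f K r) :
    Scale f K' r :=
  ⟨h.sm, h.cs, fun i y => (h.d1 i y).trans hK,
    fun i j y => (h.d2 i j y).trans (div_le_div_of_nonneg_right hK hr.le),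
    fun i j l y => (h.d3 i j l y).trans (div_le_div_of_nonneg_right hK (by positivity)),
    fun i j l m y => (h.d4 i j l m y).trans (div_le_div_of_nonneg_right hK (by positivity))⟩

theorem st_CUT : ST_CUT := by
  have hc := fun m => cut_gm m 1 one_pos
  obtain ⟨C1, p1, h1⟩ := cut_bdfin (fun p : Fin 3 × Fin 3 => pd p.2 (gm p.1 1))
    fun p => cut_pd (hc _) _
  obtain ⟨C2, p2, h2⟩ := cut_bdfin
    (fun p : Fin 3 × Fin 3 × Fin 3 => pd p.2.1 (pd p.2.2 (gm p.1 1)))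
    fun p => cut_pd (cut_pd (hc _) _) _
  obtain ⟨C3, p3, h3⟩ := cut_bdfin
    (fun p : Fin 3 × Fin 3 × Fin 3 × Fin 3 => pd p.2.1 (pd p.2.2.1 (pd p.2.2.2 (gm p.1 1))))
    fun p => cut_pd (cut_pd (cut_pd (hc _) _) _) _
  obtain ⟨C4, p4, h4⟩ := cut_bdfin
    (fun p : Fin 3 × Fin 3 × Fin 3 × Fin 3 × Fin 3 =>
      pd p.2.1 (pd p.2.2.1 (pd p.2.2.2.1 (pd p.2.2.2.2 (gm p.1 1)))))
    fun p => cut_pd (cut_pd (cut_pd (cut_pd (hc _) _) _) _) _
  set K0 : ℝ := C1 + C2 + C3 + C4 with hK0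
  have hK0n : 0 ≤ K0 := by positivity
  have s1 : ∀ m, Scale (gm m 1) K0 1 := by
    intro m
    refine ⟨(hc m).1, (hc m).2, ?_, ?_, ?_, ?_⟩
    · intro i y
      have := h1 (m, i) y
      linarith
    · intro i j y
      have := h2 (m, i, j) y
      rw [div_one]
      linarith
    · intro i j l y
      have := h3 (m, i, j, l) y
      rw [one_pow, div_one]
      linarith
    · intro i j l k y
      have := h4 (m, i, j, l, k) y
      rw [one_pow, div_one]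
      linarith
  have s2 : ∀ (m : Fin 3) (R : ℝ), 0 < R → Scale (gm m R) K0 R := by
    intro m R hR
    have h5 := cut_gm m R hR
    rw [cut_gm_sc m R hR] at h5 ⊢
    exact cut_Scale _ _ _ hR (hc m) h5 (s1 m)
  refine ⟨1 + 2 * K0, by linarith, ?_, ?_⟩
  · intro m R hR
    exact ⟨cut_Scale_mono _ K0 _ R hR (by linarith) (s2 m R hR), cut_one m R hR, cut_zero m R hR⟩
  · intro m r R hr hrR
    have hR : 0 < R := hr.trans_le hrR
    refine ⟨cut_Scale_mono _ (2 * K0) _ r hr (by linarith)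
      (cut_sub_Scale _ _ K0 r R hr hrR hK0n (cut_gm m R hR) (cut_gm m r hr) (s2 m R hR)
        (s2 m r hr)), ?_, ?_⟩
    · intro y hy
      rw [cut_one m R hR y (hy.le.trans hrR), cut_one m r hr y hy.le, sub_self]
    · intro y hy
      rw [cut_zero m R hR y hy.le, cut_zero m r hr y (by linarith), sub_self]

end Pool.Agent.Helper95.PW
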